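import Pool.Agent.R221.Cyc.Main

set_option autoImplicit false

open Pool.Agent.R221.Cyc

namespace Pool.Agent.Results.MP_c8d2d2_an.CyclicOptimal

/-- For all `n`, all admissible matrices and all weights the cyclic arrangement minimizes the
energy. -/
theorem result (n : ℕ) (hn : 0 < n) (ω : Fin 3 → ℝ) (hω : ∀ t, 0 < ω t) (hω1 : ∑ t, ω t = 1)
    (f : Matrix (Fin 3) (Fin 3) ℝ) (hf : IsAdmissible f) :
    IsArrangement n cyclic ∧
      ∀ i : ℕ → Fin 3, IsArrangement n i → energy n ω f cyclic ≤ energy n ω f i :=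
  ⟨cyclic_arr n, fun _ hi => cyclic_min hn hω hω1 hf hi⟩

end Pool.Agent.Results.MP_c8d2d2_an.CyclicOptimal
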